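import Pool.Agent.QSN.StmtsB2

set_option autoImplicit false

namespace Pool.Agent.QSN.H45

open Matrix Finset Pool.Agent.QSX Pool.Agent.QSN Filter Topology

theorem vgq (bas : BasStmt) (flq : FlqStmt) (vrq : VrqStmt) (gaq : GaqStmt) (aqm : AqmStmt)
    (brm : BrmStmt) (cen : CenStmt) (inq : InqStmt) (toq : ToqStmt) : VgqStmt := by
  intro X Y hX E _ _ f hf
  obtain ⟨H⟩ := bas X hX
  obtain ⟨A⟩ := gaq X Y hX H (vrq X Y hX H (flq X Y hX H E f hf))
  obtain ⟨A', hA'⟩ := aqm X Y hX H A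
  refine ⟨A.S, A.P, A'.C, A.Pb, brm X Y hX A.S.FF A.P A', ?_⟩
  refine toq X Y hX H A.S.FF A.P A' ?_
  intro j v hv h
  refine inq X Y hX H A j v hv ?_
  rw [← h]
  refine Finset.sum_congr rfl fun k _ => ?_
  have h1 : (1 : UX X) ∈ hX.Gam := hX.Gam.one_mem
  have h2 : (ue (H.w k) : UX X) ∈ hX.Gam := by
    have hc := (cen X hX H).2.1 k 1
    rw [one_smul, one_smul] at hc
    rw [← hc]
    have g1 : ue (hX.e (H.l k)) ∈ hX.Gam := by
      apply Subgroup.subset_closure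
      exact ⟨H.l k, 1, by rw [Rat.cast_one, one_smul]⟩
    have g2 : ue (hX.e (H.m k)) ∈ hX.Gam := by
      apply Subgroup.subset_closure
      exact ⟨H.m k, 1, by rw [Rat.cast_one, one_smul]⟩
    exact hX.Gam.mul_mem (hX.Gam.mul_mem (hX.Gam.mul_mem g1 g2) (hX.Gam.inv_mem g1))
      (hX.Gam.inv_mem g2)
  rw [hA' 1 h1 (ue (H.w k)) h2]
  rfl

end Pool.Agent.QSN.H45
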